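import Pool.Agent.N933.GS.DiffG

/-!
# Gaussian disorder, `d ≥ 3`: at every energy inside the band the resolvent is diffusive

`H_σ = Δ + σ ξ` on `ℤ^d`, `d ≥ 3`, `ξ` iid standard Gaussian, `0 < |σ| ≤ σ₀(d, κ, K)`. With
probability at least `1 - exp(-|σ|^{-1/268})` the following holds simultaneously for
* all sites `|a| ≤ exp(|σ|^{-1/268})`,
* all energies `|E| ≤ 2 d - κ`,
* all scales `|σ|^{2 + 1/52} ≤ η ≤ |σ|^{2 + 1/130}` (the kinetic scale is `σ²`),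
* all `q ∈ ℝ^d` with `|q|² ≤ K`.

The resolvent `u = (H_σ - E - iη)⁻¹ δ_a` exists in `ℓ²`, and for every such `u`, with
`r = (η σ²)^{1/2}`,
`η ∑_x e^{i r q·(x - a)} |u(x)|² = Im g₀(E) / (1 + D(E) |q|²) + O(|σ|^{1/320})`,
where `D(E) = Im g₁(E) / (Im g₀(E))²`.

At `q = 0` the sum is `Im u(a)`. So in the units `1 / r` the probability measure
`|u(x)|² / ∑ |u|²` converges to the law at an independent exponential time of the Brownian motion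
with generator `D(E) Δ`, whose characteristic function is `1 / (1 + D(E) |q|²)`. This is the
heat equation (in its resolvent form) past the kinetic scale, with the diffusion constant of the
linear Boltzmann equation, at every energy inside the band and for one fixed realisation of the
Gaussian disorder.
-/

set_option autoImplicit false

open scoped BigOperators ENNReal Topology
open MeasureTheory Filter ProbabilityTheory

namespace Pool.Agent.Results.MP_1906c1_mp.GaussianDiffusion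

/-- `(Δ + σ ξ) u (x)`, where `Δ u (x) = ∑_{|y-x|=1} u(y)`. -/
noncomputable def H {d : ℕ} (σ : ℝ) (ξ : (Fin d → ℤ) → ℝ) (u : (Fin d → ℤ) → ℂ)
    (x : Fin d → ℤ) : ℂ :=
  (∑ i : Fin d, (u (x + Pi.single i 1) + u (x - Pi.single i 1))) + ((σ * ξ x : ℝ) : ℂ) * u x

/-- `u = (H_σ - E - iη)⁻¹ δ_a` in `ℓ²(ℤ^d)` -/
structure IsGreen {d : ℕ} (σ : ℝ) (ξ : (Fin d → ℤ) → ℝ) (a : Fin d → ℤ) (E η : ℝ)
    (u : (Fin d → ℤ) → ℂ) : Prop where
  sq : Summable fun x => ‖u x‖ ^ 2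
  eq : ∀ x, H σ ξ u x - ((E : ℂ) + (η : ℂ) * Complex.I) * u x = if x = a then 1 else 0

/-- `∫_0^1 exp(-is · 2 cos 2πx) dx` -/
noncomputable def p0 (s : ℝ) : ℂ :=
  ∫ x in (0 : ℝ)..1, Complex.exp (Complex.I * ((-s * (2 * Real.cos (2 * Real.pi * x)) : ℝ) : ℂ))

/-- `∫_0^1 sin²(2πx) exp(-is · 2 cos 2πx) dx` -/
noncomputable def p1 (s : ℝ) : ℂ :=
  ∫ x in (0 : ℝ)..1, ((Real.sin (2 * Real.pi * x) ^ 2 : ℝ) : ℂ) *
    Complex.exp (Complex.I * ((-s * (2 * Real.cos (2 * Real.pi * x)) : ℝ) : ℂ))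

/-- the boundary value `∫_{[0,1]^d} (∑ 2 cos 2πk_i - E - i0)⁻¹ dk` -/
noncomputable def g0 (d : ℕ) (E : ℝ) : ℂ :=
  Complex.I * ∫ s in Set.Ioi (0 : ℝ), p0 s ^ d * Complex.exp (Complex.I * (E : ℂ) * s)

/-- the boundary value `∫_{[0,1]^d} sin²(2πk_1) (∑ 2 cos 2πk_i - E - i0)⁻¹ dk` -/
noncomputable def g1 (d : ℕ) (E : ℝ) : ℂ :=
  Complex.I * ∫ s in Set.Ioi (0 : ℝ), p1 s * p0 s ^ (d - 1) * Complex.exp (Complex.I * (E : ℂ) * s)

/-- the diffusion constant at the energy `E` -/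
noncomputable def D (d : ℕ) (E : ℝ) : ℝ := (g1 d E).im / (g0 d E).im ^ 2

theorem g0_eq (d : ℕ) (E : ℝ) : g0 d E = Pool.Agent.TH794.QD.GF (Pool.Agent.TH794.QD.F0 d) E := rfl

theorem g1_eq (d : ℕ) (E : ℝ) : g1 d E = Pool.Agent.TH794.QD.GF (Pool.Agent.TH794.QD.F1 d) E := rfl

theorem ph_eq {d : ℕ} (r : ℝ) (q : Fin d → ℝ) (x a : Fin d → ℤ) :
    Pool.Agent.TH794.HK.ph (fun i => r * q i) (x - a) =
      Complex.exp (Complex.I * ((r * ∑ i, q i * ((x i : ℝ) - a i) : ℝ) : ℂ)) := by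
  unfold Pool.Agent.TH794.HK.ph
  rw [Finset.mul_sum]
  congr 3
  refine Finset.sum_congr rfl fun i _ => ?_
  simp only [Pi.sub_apply, Int.cast_sub]
  ring

theorem green_iff {d : ℕ} (σ : ℝ) (ξ : (Fin d → ℤ) → ℝ) (a : Fin d → ℤ) (E η : ℝ)
    (u : (Fin d → ℤ) → ℂ) : IsGreen σ ξ a E η u ↔ N933.GS.Gr d (fun x => σ * ξ x) a E η u :=
  ⟨fun h => ⟨h.sq, h.eq⟩, fun h => ⟨h.sq, h.eq⟩⟩

/-- the statement for the potential `-W` and the coupling `s` -/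
def QB (d : ℕ) (κ K s : ℝ) (W : (Fin d → ℤ) → ℝ) : Prop :=
  ∀ a : Fin d → ℤ, ‖a‖ ≤ Real.exp (s ^ (-(1 / 268) : ℝ)) → ∀ E : ℝ, |E| ≤ 2 * d - κ →
    ∀ η : ℝ, s ^ (105 / 52 : ℝ) ≤ η → η ≤ s ^ (261 / 130 : ℝ) →
    ∀ u, N933.GS.Gr d (fun x => -W x) a E η u → ∀ q : Fin d → ℝ, ∑ i, q i ^ 2 ≤ K →
      ‖(η : ℂ) * ∑' x, Complex.exp (Complex.I *
          ((Real.sqrt (η * s ^ 2) * ∑ i, q i * ((x i : ℝ) - a i) : ℝ) : ℂ)) *
          ((‖u x‖ ^ 2 : ℝ) : ℂ) -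
        (((g0 d E).im / (1 + D d E * ∑ i, q i ^ 2) : ℝ) : ℂ)‖ ≤ s ^ (1 / 320 : ℝ)

/-- **Theorem.** -/
theorem result (d : ℕ) (hd : 3 ≤ d) (κ : ℝ) (hκ : 0 < κ) (hκ1 : κ ≤ 1) :
    (∃ m : ℝ, 0 < m ∧ ∀ E : ℝ, |E| ≤ 2 * d - κ → m ≤ (g1 d E).im ∧
      (g1 d E).im ≤ (g0 d E).im) ∧
    ∀ K : ℝ, 0 ≤ K → ∃ σ₀ : ℝ, 0 < σ₀ ∧ ∀ σ : ℝ, 0 < |σ| → |σ| ≤ σ₀ →
      ∃ G : Set ((Fin d → ℤ) → ℝ), MeasurableSet G ∧
        1 - Real.exp (-|σ| ^ (-(1 / 268) : ℝ)) ≤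
          (Measure.infinitePi fun _ : Fin d → ℤ => gaussianReal 0 1).real G ∧
        ∀ ξ ∈ G, ∀ a : Fin d → ℤ, ‖a‖ ≤ Real.exp (|σ| ^ (-(1 / 268) : ℝ)) →
          ∀ E : ℝ, |E| ≤ 2 * d - κ →
          ∀ η : ℝ, |σ| ^ (105 / 52 : ℝ) ≤ η → η ≤ |σ| ^ (261 / 130 : ℝ) →
            (∃ u, IsGreen σ ξ a E η u) ∧
            ∀ u, IsGreen σ ξ a E η u → ∀ q : Fin d → ℝ, ∑ i, q i ^ 2 ≤ K →
              ‖(η : ℂ) * ∑' x, Complex.exp (Complex.I *
                  ((Real.sqrt (η * σ ^ 2) * ∑ i, q i * ((x i : ℝ) - a i) : ℝ) : ℂ)) *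
                  ((‖u x‖ ^ 2 : ℝ) : ℂ) -
                (((g0 d E).im / (1 + D d E * ∑ i, q i ^ 2) : ℝ) : ℂ)‖ ≤ |σ| ^ (1 / 320 : ℝ) := by
  obtain ⟨γ0, γ1, h⟩ := N933.GS.diffG d (by omega)
  obtain ⟨h1, ⟨m, hm, h2⟩, h3⟩ := h κ hκ hκ1
  have hd0 : (0 : ℝ) ≤ d := Nat.cast_nonneg d
  have hE3 : ∀ E : ℝ, |E| ≤ 2 * d - κ → |E| ≤ 3 * d := fun E hE => by linarith
  have hreg : ∀ E : ℝ, |E| ≤ 3 * d → Pool.Agent.TH794.QE.RegE d κ E :=
    fun E hE => Or.inr ⟨hd, hE⟩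
  have hg0 : ∀ E : ℝ, |E| ≤ 3 * d → γ0 E = g0 d E := fun E hE =>
    tendsto_nhds_unique (h1 E (hreg E hE)).1
      (Pool.Agent.TH794.QE.lim3 _ _
        (Pool.Agent.TH794.QD.hol0 Pool.Agent.W918.BK.Osc.osc d hd) E)
  have hg1 : ∀ E : ℝ, |E| ≤ 3 * d → γ1 E = g1 d E := fun E hE =>
    tendsto_nhds_unique (h1 E (hreg E hE)).2.1
      (Pool.Agent.TH794.QE.lim3 _ _
        (Pool.Agent.TH794.QD.hol1 Pool.Agent.W918.BK.Osc.osc d hd) E)
  refine ⟨⟨m, hm, fun E hE => ?_⟩, fun K hK => ?_⟩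
  · have h4 := h2 E (hreg E (hE3 E hE)) hE
    have h5 := (h1 E (hreg E (hE3 E hE))).2.2.2
    rw [hg1 E (hE3 E hE)] at h4 h5
    rw [hg0 E (hE3 E hE)] at h5
    exact ⟨h4, h5⟩
  · obtain ⟨y0, hy0⟩ := h3 K hK
    obtain ⟨y1, hy1⟩ : ∃ y1, y1 = max y0 0 := ⟨_, rfl⟩
    have key : ∀ s : ℝ, 0 < s → s ≤ Real.exp (-y1) → ∃ G : Set ((Fin d → ℤ) → ℝ),
        MeasurableSet G ∧ 1 - Real.exp (-s ^ (-(1 / 268) : ℝ)) ≤
        (Measure.infinitePi fun _ : Fin d → ℤ => N933.GS.γ1).real G ∧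
        ∀ ξ ∈ G, QB d κ K s (fun x => s * ξ x) := by
      intro s hs hs0
      obtain ⟨y, hy⟩ : ∃ y, y = Real.log (1 / s) := ⟨_, rfl⟩
      have hlogs : Real.log s = -y := by
        rw [hy, one_div, Real.log_inv, neg_neg]
      have hyy1 : y1 ≤ y := by
        have h1 := Real.log_le_log hs hs0
        rw [Real.log_exp, hlogs] at h1
        linarith
      have hyy0 : y0 ≤ y := le_trans (by rw [hy1]; exact le_max_left _ _) hyy1
      have hrp : ∀ p q : ℝ, q = -p → s ^ p = Real.exp (q * y) := by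
        intro p q hpq
        rw [Real.rpow_def_of_pos hs, hlogs, hpq]
        congr 1
        ring
      have e1 : s ^ (-(1 / 268) : ℝ) = Real.exp (1 / 268 * y) := hrp _ _ (by norm_num)
      have e2 : s ^ (105 / 52 : ℝ) = Real.exp (-(105 / 52) * y) := hrp _ _ (by norm_num)
      have e3 : s ^ (261 / 130 : ℝ) = Real.exp (-(261 / 130) * y) := hrp _ _ (by norm_num)
      have e4 : s ^ (1 / 320 : ℝ) = Real.exp (-(1 / 320) * y) := hrp _ _ (by norm_num)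
      have e5 : Real.exp (-1 * y) = s := by
        rw [neg_one_mul, ← hlogs, Real.exp_log hs]
      obtain ⟨G, hG, hP, hL⟩ := hy0 y hyy0
      rw [e1]
      refine ⟨G, hG, hP, fun ξ hξ => ?_⟩
      intro a ha E hE η hη1 hη2 u hu q hq
      rw [e1] at ha
      rw [e2] at hη1
      rw [e3] at hη2
      rw [e4]
      have hr := N933.GS.gr_rs hu
      simp only [neg_neg] at hr
      have eE : 2 * (d : ℝ) - (2 * d - E) = E := by ring
      have h6 := hL ξ hξ a ha (2 * d - E) (by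
        rw [eE]
        exact ⟨hreg E (hE3 E hE), hE⟩) η hη1 hη2 (fun x => -(starRingEnd ℂ) (u x)) (by
        rw [e5]
        exact hr) q hq
      rw [eE, hg0 E (hE3 E hE), hg1 E (hE3 E hE), e5] at h6
      simp only [ph_eq, norm_neg, Complex.norm_conj] at h6
      exact h6
    refine ⟨Real.exp (-y1), Real.exp_pos _, fun σ hσ hσ0 => ?_⟩
    obtain ⟨G, hG, hP, hQ⟩ := N933.GS.sgn (d := d) (QB d κ K)
      (fun s => 1 - Real.exp (-s ^ (-(1 / 268) : ℝ))) _ key (-σ) (by rwa [abs_neg])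
      (by rwa [abs_neg])
    rw [abs_neg] at hP hQ
    refine ⟨G, hG, hP, fun ξ hξ a ha E hE η hη1 hη2 => ?_⟩
    have hη0 : 0 < η := lt_of_lt_of_le (Real.rpow_pos_of_pos hσ _) hη1
    have hη3 : η ≤ 1 := by
      refine hη2.trans (Real.rpow_le_one hσ.le ?_ (by norm_num))
      refine hσ0.trans (Real.exp_le_one_iff.2 ?_)
      have : 0 ≤ y1 := by rw [hy1]; exact le_max_right _ _
      linarith
    constructor
    · obtain ⟨u, hu⟩ := N933.GS.gr_exists (d := d) (by omega) (fun x => σ * ξ x) a E η hη0 hη3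
      exact ⟨u, (green_iff σ ξ a E η u).2 hu⟩
    · intro u hu q hq
      have h7 := hQ ξ hξ a ha E hE η hη1 hη2 u (by
        have h8 := (green_iff σ ξ a E η u).1 hu
        have e9 : (fun x => -(-σ * ξ x)) = fun x => σ * ξ x := by
          funext x
          ring
        rw [e9]
        exact h8) q hq
      rw [sq_abs] at h7
      exact h7

end Pool.Agent.Results.MP_1906c1_mp.GaussianDiffusion
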